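import Pool.Agent.H50.GenZ.RootSet
import Pool.Agent.H50.GenZ.MainV

/-!
# Special sets of the coverings of a variety which ramify over many reduced divisors

Let `Z ⊆ P^n` be an irreducible projective variety, given by its homogeneous prime ideal `I`.  A
form `F`, not in `I`, defines a hypersurface section `Z ∩ {F = 0}`.  If this scheme is reduced, the
ideal `(F) + I` is radical in all degrees `≥ D`, where `D` depends on `Z` and the degree of `F`
(`D = 0` for `Z = P^n`).

For all `n`, `e`, `h`, `D` there is a constant `C` with the following property.  Let `Z ⊆ P^n` be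
any irreducible projective variety (of any dimension and degree).  Let `F_i`, `i ∈ ι`, be at least
`C` forms of degrees between `1` and `e` which do not vanish on `Z`, such that the ideals
`(F_i) + I` are radical in all degrees `≥ D` and no point of `Z` is on more than `h` of the
hypersurfaces `F_i = 0`.  Then there is a form `Θ` of degree at most `C`, not vanishing on `Z`,
such that, for every projective set `X' ⊆ P^N` and every finite morphism `π : X' → Z` (given by
`n + 1` forms of the same degree without common zeros on `X'`):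
* every entire curve in `X'` that meets all the divisors `F_i ∘ π = 0` with multiplicities at
  least `2` is constant or contained in `Θ ∘ π = 0`;
* every holomorphic map from the punctured disc to `X'` that meets all the divisors
  `F_i ∘ π = 0` with multiplicities at least `2` extends to the disc or is contained in
  `Θ ∘ π = 0`;
* the special sets `Sp_h(X)`, `Sp_p(X)`, `Sp_sab(X)` are contained in `Θ ∘ π = 0` for every
  subset `X` of `X'` on which the divisors `F_i ∘ π = 0` have multiplicities at least `2` (a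
  covering of `Z` or of an open subset of `Z` which ramifies over all the `F_i = 0`).

In particular the special sets of the coverings `x_i^(d_i) = F_i(y)`, `y ∈ Z`, where `d_i ≥ 2` is
the degree of `F_i`, are not equal to `X`.  For `Z = P^n`, the zero ideal `I`, the condition on
the divisors is that the forms `F_i` are squarefree.
-/

set_option autoImplicit false

namespace Pool.Agent.Results.MP_160ed4_ag.ReducedSections

open Pool.Agent.H42.GGL (PSpace VanishesAt projectiveSet HolomorphicAt SpH)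
open Pool.Agent.H84.GT (SpP)
open Pool.Agent.H86.Log (SpSabAn)
open Pool.Agent.H24.Orb (HasMult)
open Pool.Agent.H50.GenP (MeetsAt)
open Pool.Agent.H50.GenZ (IsReducedSection IsRadicalFrom)
open MvPolynomial (eval bind₁ homogeneousComponent X)

/-- **Coverings of a variety which ramify over many reduced divisors.** -/
theorem result {n : ℕ} :
    -- squarefree forms on the projective space itself
    (∀ F : MvPolynomial (Fin (n + 1)) ℂ, Squarefree F → IsRadicalFrom 0 ⊥ F) ∧
    -- forms which define reduced sections of the variety with the homogeneous prime ideal `I`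
    (∀ I : Ideal (MvPolynomial (Fin (n + 1)) ℂ), I.IsPrime →
      (∀ P ∈ I, ∀ k, homogeneousComponent k P ∈ I) → (∃ a, X a ∉ I) → ∀ e : ℕ,
      ∃ D : ℕ, ∀ (d : ℕ) (F : MvPolynomial (Fin (n + 1)) ℂ), d ≤ e → F.IsHomogeneous d →
        F ∉ I → IsReducedSection I F → IsRadicalFrom D I F) ∧
    ∀ e h D : ℕ, ∃ C : ℕ,
    -- the variety `Z` with the homogeneous prime ideal `I`
    ∀ (I : Ideal (MvPolynomial (Fin (n + 1)) ℂ)), I.IsPrime →
    (∀ P ∈ I, ∀ k, homogeneousComponent k P ∈ I) → (∃ a, X a ∉ I) →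
    -- the divisors `F i = 0` of `Z` of degree `d i ≤ e`, at most `h` of them through every point
    ∀ {ι : Type} [Finite ι], C ≤ Nat.card ι →
    ∀ (d : ι → ℕ) (F : ι → MvPolynomial (Fin (n + 1)) ℂ), (∀ i, 1 ≤ d i ∧ d i ≤ e) →
    (∀ i, (F i).IsHomogeneous (d i)) → (∀ i, F i ∉ I) → (∀ i, IsRadicalFrom D I (F i)) →
    (∀ y : Fin (n + 1) → ℂ, y ≠ 0 → (∀ P ∈ I, eval y P = 0) →
      Nat.card {i // eval y (F i) = 0} ≤ h) →
    ∃ (b : ℕ) (Θ : MvPolynomial (Fin (n + 1)) ℂ), b ≤ C ∧ Θ ∉ I ∧ Θ.IsHomogeneous b ∧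
      -- the projective sets `X'` with a finite morphism `π` to `Z`
      (∀ (N c δ : ℕ) (G : Fin c → MvPolynomial (Fin (N + 1)) ℂ)
        (π : Fin (n + 1) → MvPolynomial (Fin (N + 1)) ℂ), (∀ k, ∃ g, (G k).IsHomogeneous g) →
        1 ≤ δ → (∀ a, (π a).IsHomogeneous δ) →
        (∀ p ∈ projectiveSet G, ∃ a, ¬ VanishesAt (π a) p) →
        (∀ p ∈ projectiveSet G, ∀ P ∈ I, eval (fun a => eval p.rep (π a)) P = 0) →
        -- entire curves
        (∀ f : ℂ → PSpace N, (∀ z, HolomorphicAt f z) → (∀ z, f z ∈ projectiveSet G) →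
          (∀ i z, MeetsAt 2 (bind₁ π (F i)) f z) →
          (∀ z w, f z = f w) ∨ ∀ z, VanishesAt (bind₁ π Θ) (f z)) ∧
        -- punctured discs
        (∀ f : ℂ → PSpace N, (∀ z, 0 < ‖z‖ → ‖z‖ < 1 → HolomorphicAt f z ∧
          f z ∈ projectiveSet G ∧ ∀ i, MeetsAt 2 (bind₁ π (F i)) f z) →
          (∃ g : ℂ → PSpace N, (∀ z, ‖z‖ < 1 → HolomorphicAt g z) ∧
            ∀ z, 0 < ‖z‖ → ‖z‖ < 1 → g z = f z) ∨
          ∀ z, 0 < ‖z‖ → ‖z‖ < 1 → VanishesAt (bind₁ π Θ) (f z)) ∧
        -- special sets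
        (∀ X : Set (PSpace N), X ⊆ projectiveSet G →
          (∀ i, HasMult 2 X (d i * δ) (bind₁ π (F i))) →
          SpH X ⊆ {p | p ∈ X ∧ VanishesAt (bind₁ π Θ) p} ∧
          SpP X ⊆ {p | p ∈ X ∧ VanishesAt (bind₁ π Θ) p} ∧
          SpSabAn X ⊆ {p | p ∈ X ∧ VanishesAt (bind₁ π Θ) p})) ∧
      -- the coverings `X = {x_i ^ (d i) = F i (y), y ∈ Z}` in `P^N`
      ((∀ i, 2 ≤ d i) → ∀ (N : ℕ) (α : Fin (n + 1) ⊕ ι ≃ Fin (N + 1)) (X : Set (PSpace N)),
        X = {p | (∀ P ∈ I, eval (fun a => p.rep (α (Sum.inl a))) P = 0) ∧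
          ∀ i, p.rep (α (Sum.inr i)) ^ d i = eval (fun a => p.rep (α (Sum.inl a))) (F i)} →
        SpH X ≠ X ∧ SpP X ≠ X ∧ SpSabAn X ≠ X) := by
  refine ⟨fun F hF => Pool.Agent.H50.GenZ.isRadicalFrom_bot hF, fun I hI hIh hI1 e =>
    Pool.Agent.H50.GenZ.exists_isRadicalFrom I hIh hI1 e, fun e h D => ?_⟩
  obtain ⟨C, hC⟩ := Pool.Agent.H50.GenZ.mainV n e h D
  refine ⟨C, fun I hI hIh hI1 {ι} _ hι d F hd hF hFI hred hh => ?_⟩
  obtain ⟨b, Θ, hb, hΘ0, hΘ, hexc⟩ := hC I hI hIh hI1 hι d F hd hF hFI hred hh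
  refine ⟨b, Θ, hb, hΘ0, hΘ, hexc, ?_⟩
  rintro hd2 N α X rfl
  exact hexc.rootSet_ne hIh hI1 hF hΘ hΘ0 hd2 α

end Pool.Agent.Results.MP_160ed4_ag.ReducedSections
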