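import Mathlib
import Pool.Agent.H84.GT.Main

/-!
# The conditions (3), (4), (5) of the generalized Green–Griffiths–Lang conjecture for
# quasi-projective sets defined by sparse polynomials

Let `X = {F_k = 0, G_l ≠ 0, x_j ≠ 0 for j ∈ J}` be a quasi-projective subset of `P^N`.  We assume
that each one of the homogeneous polynomials `F_k`, `G_l` is sparse: its exponents lie in a finite
set `S` of exponents of the same degree, in which the exponents of each variable `x_i` with
`i ∉ J` are congruent modulo some `d ≥ max(1, n²)`, where `n` is the number of elements of `S`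
minus the rank of those `F_k` which have exponents in `S` (`S`, `n` and `d` may depend on the
polynomial).

Examples are the power covers `{x : [x_0^d : … : x_N^d] ∈ Y}` of arbitrary quasi-projective
varieties `Y ⊆ P^N` for `d ≥ d_0(Y)`, the Kummer covers of exponent `d ≥ (n+1)²` of `P^n` that are
branched along an arbitrary arrangement of hyperplanes, the complements of divisors of this kind,
mixtures with closed subvarieties of a torus, and intersections of all these with projective toric
varieties.

We show `Sp_p(X) = Sp_h(X) = Sp_Gm(X)`, and that this set is the Zariski closure of the set of the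
points of `X` that are moved inside `X` by a one-parameter group of diagonal matrices.  If `X` is
irreducible and not contained in a coordinate hyperplane, then this set is `X` if and only if a
non-trivial one-parameter group of diagonal matrices acts on `X`.

The proof is self-contained.  It contains
* the theorem of Weierstrass and homogeneous coordinates for holomorphic maps from a punctured disc
  to `P^N` (`Pool.Agent.H84.Cartan.Punct.exists_lift_PD`);
* a version of Cartan's truncated second main theorem for vanishing sums of functions on the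
  punctured disc which are locally `d`-th powers
  (`Pool.Agent.H84.Cartan.Punct.punct_weighted_sum`);
* the structure of the holomorphic maps from the punctured disc to `X` with an essential
  singularity (`Pool.Agent.H84.GT.punctured_oneParam`) and of the entire curves in `X`
  (`Pool.Agent.H84.GT.entire_oneParam`): such a map `f` is moved inside `X` by a one-parameter
  group of diagonal matrices that does not fix its general point.
-/

set_option autoImplicit false

open Pool.Agent.H42.GGL Pool.Agent.H84.GT

namespace Pool.Agent.Results.MP_160ed4_ag.SparseGGL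

/-- Example: an equation `F_k` with at most `n + 1` monomials, in which the exponents of each
variable are congruent modulo `d ≥ n²`, is sparse. -/
theorem isSparse_of_card {N c : ℕ} (J : Set (Fin (N + 1)))
    (F : Fin c → MvPolynomial (Fin (N + 1)) ℂ) (k : Fin c) (e n d : ℕ)
    (hF : (F k).IsHomogeneous e) (hd : 0 < d) (hnd : n ^ 2 ≤ d)
    (hcard : (F k).support.card ≤ n + 1)
    (hcong : ∀ a ∈ (F k).support, ∀ b ∈ (F k).support, ∀ i ∉ J, a i ≡ b i [MOD d]) :
    IsSparse J F (F k) := by
  have hdeg : ∀ a ∈ (F k).support, a.degree = e := by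
    intro a ha
    rw [Finsupp.degree_eq_weight_one]
    exact hF (MvPolynomial.mem_support_iff.mp ha)
  refine ⟨(F k).support, n, d, hd, hnd, le_rfl, fun a ha b hb => (hdeg a ha).trans (hdeg b hb).symm,
    hcong, ?_⟩
  by_cases h0 : F k = 0
  · rw [h0, MvPolynomial.support_zero, Finset.card_empty]
    exact Nat.zero_le _
  · have := finite_span F (F k).support
    have h1 : 0 < Module.finrank ℂ (Submodule.span ℂ
        {Q : MvPolynomial (Fin (N + 1)) ℂ | (∃ j, F j = Q) ∧ Q.support ⊆ (F k).support}) := by
      rw [Module.finrank_pos_iff]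
      exact ⟨⟨F k, Submodule.subset_span ⟨⟨k, rfl⟩, le_rfl⟩⟩, 0, fun h => h0 (congrArg Subtype.val h)⟩
    omega

/-- Example: if all the equations are linear combinations of `x_0^d, …, x_N^d`, and they have rank
at least `N + 1 - n` with `n² ≤ d`, then all linear combinations of `x_0^d, …, x_N^d` are sparse.
(This is the case of the Kummer covers of `P^(n-1)` that are branched along `N + 1` arbitrary
hyperplanes.) -/
theorem isSparse_fermat {N c : ℕ} (F : Fin c → MvPolynomial (Fin (N + 1)) ℂ)
    (P : MvPolynomial (Fin (N + 1)) ℂ) (n d : ℕ) (hd : 0 < d) (hnd : n ^ 2 ≤ d)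
    (hF : ∀ k, ∀ a ∈ (F k).support, ∃ j, a = Finsupp.single j d)
    (hP : ∀ a ∈ P.support, ∃ j, a = Finsupp.single j d)
    (hrank : N + 1 ≤ n + Module.finrank ℂ (Submodule.span ℂ (Set.range F))) :
    IsSparse ∅ F P := by
  classical
  let S : Finset (Fin (N + 1) →₀ ℕ) := Finset.univ.image fun j => Finsupp.single j d
  have hmem : ∀ a, (∃ j, a = Finsupp.single j d) → a ∈ S := by
    rintro a ⟨j, rfl⟩
    exact Finset.mem_image_of_mem _ (Finset.mem_univ j)
  have hS : ∀ a ∈ S, ∃ j, a = Finsupp.single j d := by
    intro a ha
    obtain ⟨j, -, rfl⟩ := Finset.mem_image.mp ha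
    exact ⟨j, rfl⟩
  refine ⟨S, n, d, hd, hnd, fun a ha => hmem a (hP a ha), ?_, ?_, ?_⟩
  · intro a ha b hb
    obtain ⟨i, rfl⟩ := hS a ha
    obtain ⟨j, rfl⟩ := hS b hb
    rw [Finsupp.degree_single, Finsupp.degree_single]
  · intro a ha b hb i _
    obtain ⟨j, rfl⟩ := hS a ha
    obtain ⟨k, rfl⟩ := hS b hb
    have h0 : ∀ j : Fin (N + 1), (Finsupp.single j d) i ≡ 0 [MOD d] := by
      intro j
      rw [Finsupp.single_apply]
      split_ifs
      · exact Nat.modEq_zero_iff_dvd.mpr dvd_rfl
      · exact Nat.ModEq.refl 0
    exact (h0 j).trans (h0 k).symm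
  · have h1 : {Q : MvPolynomial (Fin (N + 1)) ℂ | (∃ k, F k = Q) ∧ Q.support ⊆ S} = Set.range F := by
      ext Q
      constructor
      · rintro ⟨h, -⟩
        exact h
      · rintro ⟨k, rfl⟩
        exact ⟨⟨k, rfl⟩, fun a ha => hmem a (hF k a ha)⟩
    rw [h1]
    refine le_trans ?_ hrank
    refine Finset.card_image_le.trans ?_
    rw [Finset.card_univ, Fintype.card_fin]

/-- **Theorem.** Let `X ⊆ P^N` be defined by `F_k = 0`, `G_l ≠ 0`, `x_j ≠ 0` (`j ∈ J`), where all
the `F_k` and `G_l` are homogeneous and sparse.  Then `Sp_p(X) = Sp_h(X) = Sp_Gm(X)` is the Zariski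
closure of the set of the points of `X` that are moved inside `X` by a one-parameter group of
diagonal matrices; if `X` is irreducible and not contained in a coordinate hyperplane, then this
is `X` if and only if a non-trivial one-parameter group of diagonal matrices acts on `X`. -/
theorem result (N c c' : ℕ) (J : Set (Fin (N + 1))) (e : Fin c → ℕ) (e' : Fin c' → ℕ)
    (F : Fin c → MvPolynomial (Fin (N + 1)) ℂ) (G : Fin c' → MvPolynomial (Fin (N + 1)) ℂ)
    (hF : ∀ k, (F k).IsHomogeneous (e k)) (hG : ∀ l, (G l).IsHomogeneous (e' l))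
    (hFs : ∀ k, IsSparse J F (F k)) (hGs : ∀ l, IsSparse J F (G l)) :
    (SpP (quasiProjectiveSet J F G) = SpH (quasiProjectiveSet J F G) ∧
      SpH (quasiProjectiveSet J F G) = SpGm (quasiProjectiveSet J F G) ∧
      SpGm (quasiProjectiveSet J F G) = zariskiClosureIn (quasiProjectiveSet J F G)
        (orbitPoints (quasiProjectiveSet J F G))) ∧
    (IsIrreducibleSet (quasiProjectiveSet J F G) →
      (∀ i, ∃ p ∈ quasiProjectiveSet J F G, p.rep i ≠ 0) →
      (SpGm (quasiProjectiveSet J F G) = quasiProjectiveSet J F G ↔
        ∃ m : Fin (N + 1) → ℕ, (∃ i j, m i ≠ m j) ∧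
          ∀ p ∈ quasiProjectiveSet J F G, OrbitIn (quasiProjectiveSet J F G) m p)) := by
  obtain ⟨h1, h2, h3⟩ := special_sets_eq J e e' F G hF hG hFs hGs
  refine ⟨⟨h1, h2, h3⟩, fun hX hcoord => ?_⟩
  rw [h3]
  exact closure_orbitPoints_eq_iff hF hG hX hcoord

end Pool.Agent.Results.MP_160ed4_ag.SparseGGL
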